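import Pool.Agent.Helper32K9.QA.A0
import Pool.Agent.Helper32K9.QA.Bad
import Pool.Agent.Helper32K9.QA.Bt
import Pool.Agent.Helper32K9.QA.Crs
import Pool.Agent.Helper32K9.QA.Fin
import Pool.Agent.Helper32K9.QA.Fm
import Pool.Agent.Helper32K9.QA.Fub
import Pool.Agent.Helper32K9.QA.Hij
import Pool.Agent.Helper32K9.QA.Pair
import Pool.Agent.Helper32K9.QA.Pbe
import Pool.Agent.Helper32K9.QA.Psz
import Pool.Agent.Helper32K9.QA.Rk
import Pool.Agent.Helper32K9.QA.Rt
import Pool.Agent.Helper32K9.QA.Rti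
import Pool.Agent.Helper32K9.QA.Rtl
import Pool.Agent.Helper32K9.QA.Rtp
import Pool.Agent.Helper32K9.QA.Rts
import Pool.Agent.Helper32K9.QA.Sm
import Pool.Agent.Helper32K9.QA.Sv
import Pool.Agent.Helper32K9.QA.Tau
import Pool.Agent.Helper32K9.QB.Gen3

/-!
# Three prime values at `p_k, p_m, p_(p_m)`, `k + m = n`, on average over the polynomials

The question asks for `k + m = n` such that the three values of the polynomial `t ^ 2 - 2` at the primes `p_k`, `p_m`
and `p_(p_m)` are primes. We prove results for all `n` (in terms of the size of the coefficients) and a positive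
proportion up to a factor `log log log H` of the integer polynomials of degree at most `d`, for every `d ≥ 2`, and an
asymptotic formula for almost all integer polynomials of degree at most `d`, for every `d ≥ 5`, in every residue class
modulo the product of all primes `q ≤ z = T ⌈log log H⌉`, for instance in the class of `t ^ 2 - 2`.
-/

set_option autoImplicit false

namespace Pool.Agent.Results.MP_04ff0f_nt.AverageOverPolynomials

open Finset

/-- The `j`-th prime, `p 1 = 2`. -/
noncomputable def p (j : ℕ) : ℕ := Nat.nth Nat.Prime (j - 1)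

/-- The integer polynomials of degree at most `d` with coefficients of absolute value at most `H`, given by their
coefficients. -/
noncomputable def polys (d H : ℕ) : Finset (Fin (d + 1) → ℤ) := Fintype.piFinset (fun _ => Icc (-(H : ℤ)) H)

/-- The value at `x` of the polynomial with the coefficients `P`. -/
def value {d : ℕ} (P : Fin (d + 1) → ℤ) (x : ℕ) : ℤ := ∑ j, P j * (x : ℤ) ^ (j : ℕ)

open Classical in
/-- The number of the elements of `S` with the property `F`. -/
noncomputable def number {α : Type} (S : Finset α) (F : α → Prop) : ℝ := ((S.filter F).card : ℝ)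

/-- The three primes `p_k, p_m, p_(p_m)` for `k = n - m`. -/
noncomputable def points (n m : ℕ) : Fin 3 → ℕ := ![p (n - m), p m, p (p m)]

/-- The three values are primes (up to the sign). -/
def AllPrime {d : ℕ} (P : Fin (d + 1) → ℤ) (n m : ℕ) : Prop := ∀ i, (value P (points n m i)).natAbs.Prime

/-- The `m` with `1 ≤ m < n` for which the three primes are different (`k ≠ m` and `k ≠ p_m`). -/
noncomputable def indices (n : ℕ) : Finset ℕ := (Ico 1 n).filter (fun m => 2 * m ≠ n ∧ m + p m ≠ n)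

/-- The product of the primes up to `z`. -/
def modulus (z : ℕ) : ℕ := ∏ q ∈ (Icc 1 z).filter Nat.Prime, q

open Classical in
/-- The polynomials in `polys d H` which are congruent to `P₀` modulo `W` (coefficient by coefficient). -/
noncomputable def residueClass (d H W : ℕ) (P₀ : Fin (d + 1) → ℤ) : Finset (Fin (d + 1) → ℤ) :=
  (polys d H).filter (fun P => ∀ i, (W : ℤ) ∣ P i - P₀ i)

open Classical in
/-- `(log H) ^ 3` if the three values are primes, otherwise `0`. -/
noncomputable def primeWeight {d : ℕ} (H : ℕ) (P : Fin (d + 1) → ℤ) (n m : ℕ) : ℝ :=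
  if AllPrime P n m then Real.log H ^ 3 else 0

open Classical in
/-- The product over the primes `q ≤ z` of `(1 - 1 / q) ^ (-3)` if no prime `q ≤ z` divides one of the three values,
otherwise `0`. -/
noncomputable def roughWeight {d : ℕ} (z : ℕ) (P : Fin (d + 1) → ℤ) (n m : ℕ) : ℝ :=
  if (∀ i, ∀ q ∈ (Icc 1 z).filter Nat.Prime, ¬ (q : ℤ) ∣ value P (points n m i)) then
    ∏ q ∈ (Icc 1 z).filter Nat.Prime, ((1 - 1 / (q : ℝ)) ^ 3)⁻¹ else 0

lemma number_le {α : Type} (S : Finset α) (F G : α → Prop) [DecidablePred G] (h : ∀ a ∈ S, F a → G a) :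
    number S F ≤ ((S.filter G).card : ℝ) := by
  classical
  unfold number
  exact Nat.cast_le.2 (card_le_card fun a ha => mem_filter.2 ⟨(mem_filter.1 ha).1, h a (mem_filter.1 ha).1 (mem_filter.1 ha).2⟩)

lemma le_number {α : Type} (S : Finset α) (F G : α → Prop) [DecidablePred G] (h : ∀ a ∈ S, G a → F a) :
    ((S.filter G).card : ℝ) ≤ number S F := by
  classical
  unfold number
  exact Nat.cast_le.2 (card_le_card fun a ha => mem_filter.2 ⟨(mem_filter.1 ha).1, h a (mem_filter.1 ha).1 (mem_filter.1 ha).2⟩)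

lemma T_eq (n m : ℕ) : Pool.Agent.Helper32K9.QA.T n m = points n m := rfl

lemma indices_eq (n : ℕ) : Pool.Agent.Helper32K9.QA.Ms n = indices n := rfl

lemma prime_eq {d : ℕ} (H : ℕ) (P : Fin (d + 1) → ℤ) (n m : ℕ) :
    Pool.Agent.Helper32K9.QB.Fr (Real.log H) (Pool.Agent.Helper32K9.QA.T n m) P = primeWeight H P n m := by
  classical
  rw [Pool.Agent.Helper32K9.QB.Fr_eq]
  unfold primeWeight
  by_cases h : ∀ i, (Pool.Agent.Helper82K9.PR.pv P (Pool.Agent.Helper32K9.QA.T n m i)).natAbs.Prime
  · rw [if_pos h, if_pos (show AllPrime P n m from h)]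
  · rw [if_neg h, if_neg (show ¬ AllPrime P n m from h)]

lemma rough_eq {d : ℕ} (z : ℕ) (P : Fin (d + 1) → ℤ) (n m : ℕ) :
    Pool.Agent.Helper32K9.QB.Rr z (Pool.Agent.Helper32K9.QA.T n m) P = roughWeight z P n m := by
  classical
  rw [Pool.Agent.Helper32K9.QB.Rr_eq]
  unfold roughWeight
  by_cases h : ∀ i, ∀ q ∈ (Icc 1 z).filter Nat.Prime, ¬ (q : ℤ) ∣ value P (points n m i)
  · rw [if_pos h]
    exact if_pos h
  · rw [if_neg h]
    exact if_neg h

lemma class_eq (d H z : ℕ) (P₀ : Fin (d + 1) → ℤ) :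
    residueClass d H (modulus z) P₀ = Pool.Agent.Helper32K9.QB.Cl d H (primorial z) P₀ := by
  classical
  have h : modulus z = primorial z := (Pool.Agent.Helper32K9.QB.primorial_eq' z).symm
  unfold residueClass Pool.Agent.Helper32K9.QB.Cl
  rw [h]
  ext P
  rw [Finset.mem_filter]
  constructor
  · intro h1
    exact Finset.mem_filter.2 h1
  · intro h1
    exact Finset.mem_filter.1 h1

/-- (1) Let `d ≥ 2` and `B` be given. There are `κ > 0` and `H₀` such that for all `H ≥ H₀` and ALL `n` with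
`4 ≤ n ≤ (log H) ^ B`: at least `κ min (n / (log H) ^ 3) (1 / log log log H)` of the integer polynomials `P` of degree at
most `d` with coefficients at most `H` have at least one and at least `κ n / (log H) ^ 3` numbers `m` with `1 ≤ m < n` for
which the three values `|P(p_k)|`, `|P(p_m)|`, `|P(p_(p_m))|`, `k = n - m`, are primes.

(2) Let `d ≥ 5`, `B` and `ε > 0` be given. There is `T₀` such that for every `T ≥ T₀` there is `A` such that for all
`H ≥ A`, with `z = T ⌈log log H⌉` and `W` the product of the primes `q ≤ z`: for ALL `n ≤ (log H) ^ B`, ALL sets `M` of at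
least `A (log H) ^ 3` numbers `m` in `indices n`, all real numbers `c m` with `|c m| ≤ 1` and ALL integer polynomials `P₀`
of degree at most `d`: all but `ε (number)` of the polynomials `P` of degree at most `d` with coefficients at most `H` which
are congruent to `P₀` modulo `W` satisfy: the sum over the `m` in `M` of `c m` times the difference of the weight of the
prime values of `P` and the weight of the values of `P₀` without prime factors `q ≤ z` is at most `ε` times the number of
the elements of `M` plus the sum of `|c m|` times the second weight. -/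
theorem result :
    (∀ d B : ℕ, 2 ≤ d → ∃ κ : ℝ, 0 < κ ∧ ∃ H₀ : ℕ, ∀ H : ℕ, H₀ ≤ H → ∀ n : ℕ, 4 ≤ n → (n : ℝ) ≤ Real.log H ^ B →
      κ * min (n / Real.log H ^ 3) (1 / Real.log (Real.log (Real.log H))) * (polys d H).card ≤
        number (polys d H) (fun P => κ * n / Real.log H ^ 3 ≤ number (Ico 1 n) (AllPrime P n) ∧
          1 ≤ number (Ico 1 n) (AllPrime P n))) ∧
    (∀ d B : ℕ, 5 ≤ d → ∀ ε : ℝ, 0 < ε → ∃ T₀ : ℕ, ∀ T : ℕ, T₀ ≤ T → ∃ A : ℕ, ∀ H : ℕ, A ≤ H →
      ∀ z W : ℕ, z = T * ⌈Real.log (Real.log H)⌉₊ → W = modulus z →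
      ∀ n : ℕ, (n : ℝ) ≤ Real.log H ^ B → ∀ M : Finset ℕ, M ⊆ indices n → A * Real.log H ^ 3 ≤ M.card →
      ∀ c : ℕ → ℝ, (∀ m, |c m| ≤ 1) → ∀ P₀ : Fin (d + 1) → ℤ,
      number (residueClass d H W P₀) (fun P => ¬ |∑ m ∈ M, c m * (primeWeight H P n m - roughWeight z P₀ n m)| ≤
        ε * (M.card + ∑ m ∈ M, |c m| * roughWeight z P₀ n m)) ≤ ε * (residueClass d H W P₀).card) := by
  classical
  have h_fm := Pool.Agent.Helper32K9.QA.fm (Pool.Agent.Helper32K9.QA.pbe Pool.Agent.Helper32K9.QA.tau
    Pool.Agent.Helper32K9.QA.fub)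
  have h_bad := Pool.Agent.Helper32K9.QA.bad
  have h_psz := Pool.Agent.Helper32K9.QA.psz
  have h_pair := Pool.Agent.Helper32K9.QA.pair Pool.Agent.Helper32K9.QA.fub Pool.Agent.Helper32K9.QA.sv
    Pool.Agent.Helper32K9.QA.rk Pool.Agent.Helper32K9.QA.hij
    (Pool.Agent.Helper32K9.QA.a1 Pool.Agent.Helper32K9.QA.fub Pool.Agent.Helper32K9.QA.hij Pool.Agent.Helper32K9.QA.rti)
    (Pool.Agent.Helper32K9.QA.a0 Pool.Agent.Helper32K9.QA.fub Pool.Agent.Helper32K9.QA.hij)
  have h_crs := Pool.Agent.Helper32K9.QA.crs (Pool.Agent.Helper32K9.QA.rtp Pool.Agent.Helper32K9.QA.rt_ok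
    Pool.Agent.Helper32K9.QA.rts Pool.Agent.Helper32K9.QA.bt h_psz) Pool.Agent.Helper32K9.QA.rtl h_psz
  have h_sm := Pool.Agent.Helper32K9.QA.sm h_fm h_pair h_bad h_crs h_psz
  have h_fin := Pool.Agent.Helper32K9.QA.fin_ h_fm h_sm h_bad h_psz
  refine ⟨fun d B hd => ?_, fun d B hd ε hε => ?_⟩
  · obtain ⟨κ, hκ, H₀, h⟩ := h_fin d B hd
    refine ⟨κ, hκ, H₀, fun H hH n hn hnB => (h H hH n hn hnB).trans ?_⟩
    apply le_number
    intro P _ hP
    have hle : (((Ico 1 n).filter (fun m => ∀ i, (Pool.Agent.Helper82K9.PR.pv P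
        (Pool.Agent.Helper32K9.QA.T n m i)).natAbs.Prime)).card : ℝ) ≤ number (Ico 1 n) (AllPrime P n) :=
      le_number _ _ _ fun m _ hm => hm
    exact ⟨hP.1.trans hle, le_trans (by exact_mod_cast hP.2) hle⟩
  · obtain ⟨E, hE⟩ := h_psz
    obtain ⟨T₀, h⟩ := Pool.Agent.Helper32K9.QB.gen 3 d (B * E) 9 (by omega) ε hε
    refine ⟨T₀, fun T hT => ?_⟩
    obtain ⟨A, h⟩ := h T hT
    refine ⟨max A 8, fun H hH z W hz hW n hn M hM hcard c hc P₀ => ?_⟩
    have hA : A ≤ H := (le_max_left _ _).trans hH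
    have hH8 : (8 : ℝ) ≤ H := by exact_mod_cast (le_max_right _ _).trans hH
    have hL1 : 1 ≤ Real.log H := by
      rw [← Real.log_exp 1]
      apply Real.log_le_log (Real.exp_pos _)
      have := Real.exp_one_lt_d9
      linarith
    have hL3 : 1 ≤ Real.log H ^ 3 := one_le_pow₀ hL1
    have hMn : M.card ≤ n := by
      have h1 : M ⊆ Ico 1 n := hM.trans (filter_subset _ _)
      have h2 := card_le_card h1
      rw [Nat.card_Ico] at h2
      omega
    have hM8 : (8 : ℝ) ≤ M.card := by
      refine le_trans ?_ hcard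
      have : (8 : ℝ) ≤ ((max A 8 : ℕ) : ℝ) := by exact_mod_cast le_max_right _ _
      nlinarith
    have hn8 : 8 ≤ n := by
      have : (8 : ℝ) ≤ n := hM8.trans (by exact_mod_cast hMn)
      exact_mod_cast this
    have hpts : ∀ m ∈ M, Function.Injective (Pool.Agent.Helper32K9.QA.T n m) ∧
        ∀ a, 1 ≤ Pool.Agent.Helper32K9.QA.T n m a ∧
          (Pool.Agent.Helper32K9.QA.T n m a : ℝ) ≤ Real.log H ^ (B * E) := by
      intro m hm
      refine ⟨(h_bad.1 n m (hM hm)).1, fun a => ?_⟩
      have h1 := Pool.Agent.Helper32K9.QA.SmL.T_bd (hM hm) a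
      refine ⟨h1.1, ?_⟩
      have h4 : ((Pool.Agent.Helper32K9.QA.T n m a : ℕ) : ℝ) ≤ (n : ℝ) ^ E := by
        exact_mod_cast h1.2.trans (hE n (by omega))
      refine h4.trans ?_
      rw [pow_mul]
      exact pow_le_pow_left₀ (Nat.cast_nonneg _) hn _
    have hD : ∀ m ∈ M, (M.filter (fun m' => ¬ Pool.Agent.Helper32K9.QB.Apart (Pool.Agent.Helper32K9.QA.T n m)
        (Pool.Agent.Helper32K9.QA.T n m'))).card ≤ 9 := by
      intro m hm
      refine le_trans (card_le_card ?_) (h_bad.1 n m (hM hm)).2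
      intro m' hm'
      obtain ⟨h1, h2⟩ := Finset.mem_filter.1 hm'
      exact Finset.mem_filter.2 ⟨hM h1, h2⟩
    have hmain := h H hA ℕ M (fun m => Pool.Agent.Helper32K9.QA.T n m) hpts hD (by
      refine le_trans ?_ hcard
      apply mul_le_mul_of_nonneg_right _ (by positivity)
      exact_mod_cast le_max_left _ _) c hc P₀
    have hzz : Pool.Agent.Helper32K9.QA.zz T H = z := hz.symm
    rw [hzz] at hmain
    simp only [prime_eq, rough_eq] at hmain
    rw [hW, class_eq]
    refine le_trans (number_le _ _ _ ?_) hmain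
    intro P _ hP hle
    exact hP hle

end Pool.Agent.Results.MP_04ff0f_nt.AverageOverPolynomials
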