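import Pool.Agent.Helper24K9.LI.Li
import Pool.Agent.Helper24K9.LI.Np

set_option autoImplicit false

/-!
# Representations `n = k + m` with `m` in an arbitrary set, and one of the three values on average over few factors

The question asks, for every `n`, for `n = k + m` with `p_k² - 2`, `p_m² - 2` and `p_(p_m)² - 2` prime. Let `x(m)` be
one of `p_(n-m)`, `p_m`, `p_(p_m)` and let `M` be an ARBITRARY set of at least two `m`, for instance the set of all `m`
for which the values at the two others are prime. Let `i` be `1` or `2`, `h(t) = a t² + b t + c` with `c ≠ 0`. For every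
large `n` the sum of `1 / j` over the `j ≤ n^C` for which `h(x(m)) + j x(m)^i`, for instance `j x(m)² - 2`, is prime for
some `m` in `M` is at least `κ min(|M|, log n / log log n)`.
-/

namespace Pool.Agent.Results.MP_04ff0f_nt.CoefficientsBelowAPower

open Finset

/-- the `m`-th prime, `p 1 = 2` -/
noncomputable def p (m : ℕ) : ℕ := Nat.nth Nat.Prime (m - 1)

/-- The value of the polynomial `j t ^ i + (a t ^ 2 + b t + c)`. -/
def val (i : ℕ) (a b c : ℤ) (j t : ℕ) : ℤ := (t : ℤ) ^ i * j + (a * (t : ℤ) ^ 2 + b * (t : ℤ) + c)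

/-- The three primes attached to the representation `n = (n - m) + m`: `p_(n-m)`, `p_m` and `p_(p_m)`. -/
def OneOfThree (n : ℕ) (x : ℕ → ℕ) : Prop :=
  (∀ m, x m = p (n - m)) ∨ (∀ m, x m = p m) ∨ (∀ m, x m = p (p m))

/-- The number of the `m` in `M` for which the value of the polynomial at `x m` is prime. -/
noncomputable def count (M : Finset ℕ) (x : ℕ → ℕ) (i : ℕ) (a b c : ℤ) (j : ℕ) : ℕ :=
  (M.filter (fun m : ℕ => (val i a b c j (x m)).toNat.Prime)).card

/-- The number of the `m` in `M` for which no prime `q ≤ z` divides the value of the polynomial at `x m`, divided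
by the product of the factors `1 - 1 / q` over the primes `q ≤ z`. -/
noncomputable def rough (M : Finset ℕ) (x : ℕ → ℕ) (i : ℕ) (a b c : ℤ) (z j : ℕ) : ℝ :=
  ((M.filter (fun m : ℕ => ∀ q : ℕ, q ≤ z → q.Prime → ¬ (q : ℤ) ∣ val i a b c j (x m))).card : ℝ) /
    ∏ q ∈ (Icc 1 z).filter Nat.Prime, (1 - 1 / (q : ℝ))

theorem p_mono {a b : ℕ} (h : a ≤ b) : p a ≤ p b := by
  unfold p
  exact (Nat.nth_strictMono Nat.infinite_setOfPred_prime).monotone (by omega)

theorem p_ge (a : ℕ) (ha : 1 ≤ a) : a + 1 ≤ p a := by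
  unfold p
  have := Nat.add_two_le_nth_prime (a - 1)
  omega

theorem p_inj {a b : ℕ} (ha : 1 ≤ a) (hb : 1 ≤ b) (h : p a = p b) : a = b := by
  have h1 : a - 1 = b - 1 := (Nat.nth_strictMono Nat.infinite_setOfPred_prime).injective h
  omega

theorem p_le : ∃ m₀ : ℕ, ∀ m : ℕ, m₀ ≤ m → p m ≤ m ^ 2 := by
  obtain ⟨m₀, hm₀⟩ := Pool.Agent.Helper24K9.LI.nth_prime_le
  refine ⟨m₀ + 1, fun m hm => ?_⟩
  have h := hm₀ (m - 1) (by omega)
  have h2 : m - 1 + 1 = m := by omega
  rw [h2] at h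
  exact h

/-- the three primes lie between `k₀` and `n ^ 4` and are distinct for distinct `m` -/
theorem three (n k₀ : ℕ) (hk₀ : 1 ≤ k₀) (m₀ : ℕ) (hm₀ : ∀ m : ℕ, m₀ ≤ m → p m ≤ m ^ 2) (hn : m₀ ≤ n)
    (x : ℕ → ℕ) (hx : OneOfThree n x) (M : Finset ℕ) (hM : M ⊆ Icc k₀ (n - k₀)) :
    (∀ m ∈ M, (x m).Prime ∧ k₀ ≤ x m ∧ x m ≤ n ^ 4) ∧ (∀ m ∈ M, ∀ m' ∈ M, x m = x m' → m = m') := by
  have hpp : ∀ m, (p m).Prime := fun m => Nat.prime_nth_prime _
  have hpn : p n ≤ n ^ 2 := hm₀ n hn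
  have hlt : ∀ m ∈ M, k₀ ≤ m ∧ m ≤ n - k₀ ∧ 1 ≤ n - m ∧ k₀ ≤ n - m := by
    intro m hm
    have h1 := mem_Icc.1 (hM hm)
    refine ⟨h1.1, h1.2, ?_, ?_⟩ <;> omega
  have hn1 : ∀ m ∈ M, 1 ≤ n := by
    intro m hm
    have := hlt m hm
    omega
  have hsq : ∀ m ∈ M, n ^ 2 ≤ n ^ 4 := fun m hm => Nat.pow_le_pow_right (hn1 m hm) (by norm_num)
  rcases hx with hx | hx | hx
  · refine ⟨fun m hm => ?_, fun m hm m' hm' h => ?_⟩
    · have h1 := hlt m hm
      rw [hx]
      refine ⟨hpp _, ?_, ?_⟩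
      · have := p_ge (n - m) h1.2.2.1
        omega
      · exact (p_mono (by omega)).trans (hpn.trans (hsq m hm))
    · rw [hx, hx] at h
      have h1 := hlt m hm
      have h2 := hlt m' hm'
      have := p_inj h1.2.2.1 h2.2.2.1 h
      omega
  · refine ⟨fun m hm => ?_, fun m hm m' hm' h => ?_⟩
    · have h1 := hlt m hm
      rw [hx]
      refine ⟨hpp _, ?_, ?_⟩
      · have := p_ge m (by omega)
        omega
      · exact (p_mono (by omega)).trans (hpn.trans (hsq m hm))
    · rw [hx, hx] at h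
      have h1 := hlt m hm
      have h2 := hlt m' hm'
      exact p_inj (by omega) (by omega) h
  · refine ⟨fun m hm => ?_, fun m hm m' hm' h => ?_⟩
    · have h1 := hlt m hm
      have h3 := hn1 m hm
      rw [hx]
      refine ⟨hpp _, ?_, ?_⟩
      · have e1 := p_ge m (by omega)
        have e2 := p_ge (p m) (by omega)
        omega
      · have e1 : p m ≤ n ^ 2 := (p_mono (by omega)).trans hpn
        have e2 : m₀ ≤ n ^ 2 := hn.trans (Nat.le_self_pow (by norm_num) n)
        calc p (p m) ≤ p (n ^ 2) := p_mono e1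
          _ ≤ (n ^ 2) ^ 2 := hm₀ _ e2
          _ = n ^ 4 := by ring
    · rw [hx, hx] at h
      have h1 := hlt m hm
      have h2 := hlt m' hm'
      have e1 := p_ge m (by omega)
      have e2 := p_ge m' (by omega)
      exact p_inj (by omega) (by omega) (p_inj (by omega) (by omega) h)

/-- The values at different arguments are not proportional. -/
lemma ne_of_ne (i : ℕ) (a b c : ℤ) (hc : c ≠ 0) (hi : i = 1 ∨ i = 2) (s t : ℕ) (hs : 2 * c.natAbs < s)
    (ht : 2 * c.natAbs < t) (hst : s ≠ t) :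
    ((s ^ i : ℕ) : ℤ) * (a * (t : ℤ) ^ 2 + b * (t : ℤ) + c) ≠ ((t ^ i : ℕ) : ℤ) * (a * (s : ℤ) ^ 2 + b * (s : ℤ) + c) := by
  have hs' : 2 * |c| < (s : ℤ) := by rw [← Int.natCast_natAbs]; exact_mod_cast hs
  have ht' : 2 * |c| < (t : ℤ) := by rw [← Int.natCast_natAbs]; exact_mod_cast ht
  have hc1 : 1 ≤ |c| := Int.one_le_abs hc
  have hst' : (s : ℤ) - t ≠ 0 := sub_ne_zero.2 (by exact_mod_cast hst)
  have hs0 : (0:ℤ) < s := by linarith
  have ht0 : (0:ℤ) < t := by linarith
  intro h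
  push_cast at h
  rcases hi with rfl | rfl
  · have h1 : ((s : ℤ) - t) * (c - a * (s * t)) = 0 := by linear_combination h
    rcases mul_eq_zero.1 h1 with h2 | h2
    · exact hst' h2
    · have h3 : c = a * (s * t) := by linarith
      by_cases ha : a = 0
      · rw [ha, zero_mul] at h3; exact hc h3
      · have h4 : |c| = |a| * (s * t) := by rw [h3, abs_mul, abs_of_pos (mul_pos hs0 ht0)]
        have h5 := Int.one_le_abs ha
        have h6 : (s : ℤ) * t ≤ |a| * (s * t) := le_mul_of_one_le_left (mul_pos hs0 ht0).le h5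
        have h7 : 2 * |c| * t < s * t := mul_lt_mul_of_pos_right hs' ht0
        have h8 : 2 * |c| * 1 ≤ 2 * |c| * t := mul_le_mul_of_nonneg_left (by linarith) (by linarith)
        linarith
  · have h1 : ((s : ℤ) - t) * (b * (s * t) + c * (s + t)) = 0 := by linear_combination h
    rcases mul_eq_zero.1 h1 with h2 | h2
    · exact hst' h2
    · by_cases hb : b = 0
      · rw [hb, zero_mul, zero_add] at h2
        rcases mul_eq_zero.1 h2 with h3 | h3
        · exact hc h3
        · linarith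
      · have h3 : b * (s * t) = - (c * (s + t)) := by linarith
        have h4 : |b| * (s * t) = |c| * (s + t) := by
          have := congrArg abs h3
          rw [abs_mul, abs_of_pos (mul_pos hs0 ht0), abs_neg, abs_mul, abs_of_pos (add_pos hs0 ht0)] at this
          exact this
        have h5 := Int.one_le_abs hb
        have h6 : (s : ℤ) * t ≤ |b| * (s * t) := le_mul_of_one_le_left (mul_pos hs0 ht0).le h5
        have h7 : 2 * |c| * t < s * t := mul_lt_mul_of_pos_right hs' ht0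
        have h8 : 2 * |c| * s < t * s := mul_lt_mul_of_pos_right ht' hs0
        nlinarith

/-- **Representations `n = k + m` with `m` in an arbitrary set, one of the three values on average over the
coefficients below a power of `n`.** Let `i` be `1` or `2` and `c ≠ 0`. There are `C`, `k₀`, `κ > 0` and `n₀` such that
for all `n ≥ n₀`, all `Z ≥ n^513`, all sets `M` of at least two integers `m` with `k₀ ≤ m ≤ n - k₀` and for `x(m)`
each of `p_(n-m)`, `p_m`, `p_(p_m)` the sum of `1 / j` over the `j` with `√Z < j ≤ Z^C` for which the number of the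
`m` in `M` with a prime value `j x(m)^i + a x(m)^2 + b x(m) + c` is at least `1`, at least `κ |M| / log Z` and
at least `κ R / log Z`, where `R` is `rough` for `z = ⌊log Z / 64⌋`, is at least `κ min(|M|, log Z / log log Z)`. -/
theorem result (i : ℕ) (hi : i = 1 ∨ i = 2) (a b c : ℤ) (hc : c ≠ 0) :
    ∃ (C k₀ : ℕ) (κ : ℝ), 1 ≤ C ∧ 0 < κ ∧ ∃ n₀ : ℕ, ∀ n Z : ℕ, n₀ ≤ n → n ^ 513 ≤ Z → ∀ x : ℕ → ℕ, OneOfThree n x →
      ∀ M ⊆ Icc k₀ (n - k₀), 2 ≤ M.card →
      ∃ s ⊆ Ioc (Nat.sqrt Z) (Z ^ C), κ * min (M.card : ℝ) (Real.log Z / Real.log (Real.log Z)) ≤ ∑ j ∈ s, 1 / (j : ℝ) ∧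
        ∀ j ∈ s, 1 ≤ count M x i a b c j ∧
          κ * (M.card / Real.log Z) ≤ count M x i a b c j ∧
          κ * (rough M x i a b c ⌊Real.log Z / 64⌋₊ j / Real.log Z) ≤ count M x i a b c j := by
  classical
  obtain ⟨C, hC, κ, hκ, z₀, h⟩ := Pool.Agent.Helper24K9.LI.linnik_forms
  obtain ⟨m₀, hm₀⟩ := p_le
  set S : ℕ := a.natAbs + b.natAbs + c.natAbs with hS
  refine ⟨C, 2 * c.natAbs + 1, κ, hC, hκ, max (max z₀ m₀) (max (S ^ 64) 1), fun n Z hn hZ x hx M hM hM2 => ?_⟩
  have hnz : z₀ ≤ n := ((le_max_left _ _).trans (le_max_left _ _)).trans hn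
  have hnm : m₀ ≤ n := ((le_max_right _ _).trans (le_max_left _ _)).trans hn
  have hnS : S ^ 64 ≤ n := ((le_max_left _ _).trans (le_max_right _ _)).trans hn
  have hn1 : 1 ≤ n := ((le_max_right _ _).trans (le_max_right _ _)).trans hn
  have hZn : n ≤ Z := (Nat.le_self_pow (by norm_num) n).trans hZ
  obtain ⟨hp, hinj'⟩ := three n (2 * c.natAbs + 1) (by omega) m₀ hm₀ hnm x hx M hM
  have hpp : ∀ m ∈ M, (x m).Prime := fun m hm => (hp m hm).1
  have hp1 : ∀ m ∈ M, 2 * c.natAbs < x m := fun m hm => (hp m hm).2.1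
  have hp2 : ∀ m ∈ M, x m ≤ n ^ 4 := fun m hm => (hp m hm).2.2
  set g : ℕ → ℕ := fun m => x m ^ i with hg
  set H : ℕ → ℤ := fun m => a * (x m : ℤ) ^ 2 + b * (x m : ℤ) + c with hH
  have hi2 : i ≤ 2 := by rcases hi with rfl | rfl <;> norm_num
  have hn512 : ∀ m ∈ M, x m ^ 128 ≤ n ^ 512 := by
    intro m hm
    calc x m ^ 128 ≤ (n ^ 4) ^ 128 := Nat.pow_le_pow_left (hp2 m hm) _
      _ = n ^ 512 := by rw [← pow_mul]
  have hmain := h Z (hnz.trans hZn) M g H hM2 (by
    intro m hm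
    have h1 := (hpp m hm).pos
    refine ⟨Nat.pos_of_ne_zero (by simp only [hg]; positivity), ?_, ?_, ?_⟩
    · calc g m ^ 64 = x m ^ (i * 64) := by simp only [hg]; rw [pow_mul]
        _ ≤ x m ^ 128 := Nat.pow_le_pow_right h1 (by omega)
        _ ≤ n ^ 512 := hn512 m hm
        _ ≤ n ^ 513 := Nat.pow_le_pow_right hn1 (by norm_num)
        _ ≤ Z := hZ
    · have h2 : (H m).natAbs ≤ S * x m ^ 2 := by
        have h3 : (H m).natAbs ≤ a.natAbs * x m ^ 2 + b.natAbs * x m + c.natAbs := by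
          simp only [hH]
          refine (Int.natAbs_add_le _ _).trans (Nat.add_le_add_right ?_ _)
          refine (Int.natAbs_add_le _ _).trans (le_of_eq ?_)
          rw [Int.natAbs_mul, Int.natAbs_mul, Int.natAbs_pow, Int.natAbs_natCast]
        have h4 : x m ≤ x m ^ 2 := Nat.le_self_pow (by norm_num) _
        have h5 : 1 ≤ x m ^ 2 := Nat.one_le_pow _ _ h1
        calc (H m).natAbs ≤ a.natAbs * x m ^ 2 + b.natAbs * x m + c.natAbs := h3
          _ ≤ a.natAbs * x m ^ 2 + b.natAbs * x m ^ 2 + c.natAbs * x m ^ 2 :=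
              Nat.add_le_add (Nat.add_le_add_left (Nat.mul_le_mul_left _ h4) _) (Nat.le_mul_of_pos_right _ h5)
          _ = S * x m ^ 2 := by rw [hS]; ring
      calc (H m).natAbs ^ 64 ≤ (S * x m ^ 2) ^ 64 := Nat.pow_le_pow_left h2 _
        _ = S ^ 64 * x m ^ 128 := by rw [mul_pow, ← pow_mul]
        _ ≤ n * n ^ 512 := Nat.mul_le_mul hnS (hn512 m hm)
        _ = n ^ 513 := by ring
        _ ≤ Z := hZ
    · simp only [hg, hH]
      push_cast
      apply IsCoprime.pow_left
      have h2 : IsCoprime (x m : ℤ) c := by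
        rw [Int.isCoprime_iff_gcd_eq_one]
        have h3 : Nat.Coprime (x m) c.natAbs := by
          rw [(hpp m hm).coprime_iff_not_dvd]
          intro h4
          have h5 := Nat.le_of_dvd (Int.natAbs_pos.2 hc) h4
          have h6 := hp1 m hm
          omega
        exact h3
      have h3 := h2.add_mul_left_right (a * (x m : ℤ) + b)
      have e : c + (x m : ℤ) * (a * (x m : ℤ) + b) = a * (x m : ℤ) ^ 2 + b * (x m : ℤ) + c := by
        ring
      rwa [e] at h3) (by
    intro s hs t ht hst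
    have h1 : x s ≠ x t := fun h' => hst (hinj' s hs t ht h')
    refine ⟨?_, ?_⟩
    · simp only [hg]
      apply Nat.Coprime.pow
      exact (Nat.coprime_primes (hpp s hs) (hpp t ht)).2 h1
    · exact ne_of_ne i a b c hc hi (x s) (x t) (hp1 s hs) (hp1 t ht) h1)
  refine ⟨_, filter_subset _ _, hmain, fun j hj => ?_⟩
  obtain ⟨h2, h3, h4⟩ := (mem_filter.1 hj).2
  have e1 : Pool.Agent.Helper24K9.LI.cnt M g H j = count M x i a b c j := by
    unfold Pool.Agent.Helper24K9.LI.cnt count val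
    simp only [hg, hH]
    push_cast
    rfl
  have e2 : (Pool.Agent.Helper24K9.LI.uns M g H ⌊Real.log Z / 64⌋₊ j : ℝ) /
      Pool.Agent.W218.HF.Wz ⌊Real.log Z / 64⌋₊ = rough M x i a b c ⌊Real.log Z / 64⌋₊ j := by
    unfold Pool.Agent.Helper24K9.LI.uns Pool.Agent.W218.HF.Wz rough val
    simp only [hg, hH]
    push_cast
    rfl
  rw [e1] at h2 h3 h4
  rw [e2] at h4
  exact ⟨h2, h3, h4⟩

end Pool.Agent.Results.MP_04ff0f_nt.CoefficientsBelowAPower
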