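import Pool.Agent.Helper24K9.ES.Fin

set_option autoImplicit false

/-!
# Representations `n = k + m` with `m` in an arbitrary set, and one of the three values on average

The question asks, for every `n`, for `n = k + m` with `p_k² - 2`, `p_m² - 2` and `p_(p_m)² - 2` prime. Let `x(m)` be
one of `p_(n-m)`, `p_m`, `p_(p_m)` and let `M` be an ARBITRARY set of `m`, for instance the set of all `m` for which the
values at the two others are prime. For every large `n` and `K ≥ exp(n^ε)` the value `h(x(m)) + j g(x(m))`, for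
instance `j x(m)² - 2`, is prime for some `m` in `M` (and for `≥ κ |M| / log K` of them), for at least `κ K` times the
minimum of `|M| / log K` and `1 / log log log K` of the `j ≤ K`.
-/

namespace Pool.Agent.Results.MP_04ff0f_nt.EverySetOfSummands

open Finset

/-- the `m`-th prime, `p 1 = 2` -/
noncomputable def p (m : ℕ) : ℕ := Nat.nth Nat.Prime (m - 1)

/-- The polynomial. -/
def f (a b c : ℤ) (t : ℕ) : ℤ := a * (t : ℤ) ^ 2 + b * (t : ℤ) + c

/-- The three primes attached to the representation `n = (n - m) + m`: `p_(n-m)`, `p_m` and `p_(p_m)`. -/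
def OneOfThree (n : ℕ) (x : ℕ → ℕ) : Prop :=
  (∀ m, x m = p (n - m)) ∨ (∀ m, x m = p m) ∨ (∀ m, x m = p (p m))

/-- The number of the `m` in `M` for which the value of the polynomial at `x m` is prime. -/
noncomputable def count (M : Finset ℕ) (x : ℕ → ℕ) (a b c : ℤ) : ℕ :=
  (M.filter (fun m : ℕ => (f a b c (x m)).toNat.Prime)).card

/-- The number of the `m` in `M` for which no prime `q ≤ z` divides the value of the polynomial at `x m`, divided
by the product of the factors `1 - 1 / q` over the primes `q ≤ z`. -/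
noncomputable def rough (M : Finset ℕ) (x : ℕ → ℕ) (a b c : ℤ) (z : ℕ) : ℝ :=
  ((M.filter (fun m : ℕ => ∀ q : ℕ, q ≤ z → q.Prime → ¬ (q : ℤ) ∣ f a b c (x m))).card : ℝ) /
    ∏ q ∈ (Icc 1 z).filter Nat.Prime, (1 - 1 / (q : ℝ))

theorem p_mono {a b : ℕ} (h : a ≤ b) : p a ≤ p b := by
  unfold p
  exact (Nat.nth_strictMono Nat.infinite_setOfPred_prime).monotone (by omega)

theorem p_ge (a : ℕ) (ha : 1 ≤ a) : a + 1 ≤ p a := by
  unfold p
  have := Nat.add_two_le_nth_prime (a - 1)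
  omega

theorem p_inj {a b : ℕ} (ha : 1 ≤ a) (hb : 1 ≤ b) (h : p a = p b) : a = b := by
  have h1 : a - 1 = b - 1 := (Nat.nth_strictMono Nat.infinite_setOfPred_prime).injective h
  omega

theorem p_le : ∃ m₀ : ℕ, ∀ m : ℕ, m₀ ≤ m → p m ≤ m ^ 2 := by
  obtain ⟨m₀, hm₀⟩ := Pool.Agent.Helper24K9.ES.nth_prime_le
  refine ⟨m₀ + 1, fun m hm => ?_⟩
  have h := hm₀ (m - 1) (by omega)
  have h2 : m - 1 + 1 = m := by omega
  rw [h2] at h
  exact h

/-- the three primes lie between `k₀` and `n ^ 4` and are distinct for distinct `m` -/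
theorem three (n k₀ : ℕ) (hk₀ : 1 ≤ k₀) (m₀ : ℕ) (hm₀ : ∀ m : ℕ, m₀ ≤ m → p m ≤ m ^ 2) (hn : m₀ ≤ n)
    (x : ℕ → ℕ) (hx : OneOfThree n x) (M : Finset ℕ) (hM : M ⊆ Icc k₀ (n - k₀)) :
    (∀ m ∈ M, (x m).Prime ∧ k₀ ≤ x m ∧ x m ≤ n ^ 4) ∧ (∀ m ∈ M, ∀ m' ∈ M, x m = x m' → m = m') := by
  have hpp : ∀ m, (p m).Prime := fun m => Nat.prime_nth_prime _
  have hpn : p n ≤ n ^ 2 := hm₀ n hn
  have hlt : ∀ m ∈ M, k₀ ≤ m ∧ m ≤ n - k₀ ∧ 1 ≤ n - m ∧ k₀ ≤ n - m := by
    intro m hm
    have h1 := mem_Icc.1 (hM hm)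
    refine ⟨h1.1, h1.2, ?_, ?_⟩ <;> omega
  have hn1 : ∀ m ∈ M, 1 ≤ n := by
    intro m hm
    have := hlt m hm
    omega
  have hsq : ∀ m ∈ M, n ^ 2 ≤ n ^ 4 := fun m hm => Nat.pow_le_pow_right (hn1 m hm) (by norm_num)
  rcases hx with hx | hx | hx
  · refine ⟨fun m hm => ?_, fun m hm m' hm' h => ?_⟩
    · have h1 := hlt m hm
      rw [hx]
      refine ⟨hpp _, ?_, ?_⟩
      · have := p_ge (n - m) h1.2.2.1
        omega
      · exact (p_mono (by omega)).trans (hpn.trans (hsq m hm))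
    · rw [hx, hx] at h
      have h1 := hlt m hm
      have h2 := hlt m' hm'
      have := p_inj h1.2.2.1 h2.2.2.1 h
      omega
  · refine ⟨fun m hm => ?_, fun m hm m' hm' h => ?_⟩
    · have h1 := hlt m hm
      rw [hx]
      refine ⟨hpp _, ?_, ?_⟩
      · have := p_ge m (by omega)
        omega
      · exact (p_mono (by omega)).trans (hpn.trans (hsq m hm))
    · rw [hx, hx] at h
      have h1 := hlt m hm
      have h2 := hlt m' hm'
      exact p_inj (by omega) (by omega) h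
  · refine ⟨fun m hm => ?_, fun m hm m' hm' h => ?_⟩
    · have h1 := hlt m hm
      have h3 := hn1 m hm
      rw [hx]
      refine ⟨hpp _, ?_, ?_⟩
      · have e1 := p_ge m (by omega)
        have e2 := p_ge (p m) (by omega)
        omega
      · have e1 : p m ≤ n ^ 2 := (p_mono (by omega)).trans hpn
        have e2 : m₀ ≤ n ^ 2 := hn.trans (Nat.le_self_pow (by norm_num) n)
        calc p (p m) ≤ p (n ^ 2) := p_mono e1
          _ ≤ (n ^ 2) ^ 2 := hm₀ _ e2
          _ = n ^ 4 := by ring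
    · rw [hx, hx] at h
      have h1 := hlt m hm
      have h2 := hlt m' hm'
      have e1 := p_ge m (by omega)
      have e2 := p_ge m' (by omega)
      exact p_inj (by omega) (by omega) (p_inj (by omega) (by omega) h)

/-- **Representations `n = k + m` with `m` in an arbitrary set, one of the three values on average.** Let
`g(t) = α t² + β t + γ` and `h(t) = a t² + b t + c`, where `α > 0`, or `α = 0`, `β > 0` and `a ≠ 0`, with non-zero
resultant. There is `k₀`, and for all `ε > 0` and `θ < 1` there are `κ > 0` and `n₀`, such that the following holds for all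
`n ≥ n₀`, all `K` with `n^ε ≤ log K`, all sets `M` of integers `m` with `k₀ ≤ m ≤ n - k₀` and for `x(m)` each of
`p_(n-m)`, `p_m`, `p_(p_m)`, provided that `g(x(m))` and `h(x(m))` are coprime for `m` in `M` (for `g = t²` or `g = t` and
`h(0) ≠ 0` this is no restriction). For at least `κ · min(|M| / log K, 1 / log log log K) · K` of the `j ≤ K` the number of
the `m` in `M` for which `h(x(m)) + j g(x(m))` is prime is at least `κ |M| / log K` (so it is positive if `M` is not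
empty) and at least `θ R / log K`, where `R` is `rough` for `z = ⌈log log K⌉`. -/
theorem result (α β γ a b c : ℤ) (hlead : 0 < α ∨ (α = 0 ∧ 0 < β ∧ a ≠ 0))
    (hres : (α * c - γ * a) ^ 2 ≠ (α * b - β * a) * (β * c - γ * b)) :
    ∃ k₀ : ℕ, ∀ ε θ : ℝ, 0 < ε → θ < 1 →
    ∃ κ : ℝ, 0 < κ ∧ ∃ n₀ : ℕ, ∀ n K : ℕ, n₀ ≤ n → (n : ℝ) ^ ε ≤ Real.log K →
      ∀ x : ℕ → ℕ, OneOfThree n x →
      ∀ M ⊆ Icc k₀ (n - k₀), (∀ m ∈ M, IsCoprime (f α β γ (x m)) (f a b c (x m))) →
      ∃ s ⊆ Icc 1 K, κ * min (M.card / Real.log K) (1 / Real.log (Real.log (Real.log K))) * K ≤ s.card ∧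
        ∀ j ∈ s,
          κ * (M.card / Real.log K) ≤ count M x (a + α * j) (b + β * j) (c + γ * j) ∧
          θ * (rough M x (a + α * j) (b + β * j) (c + γ * j) ⌈Real.log (Real.log K)⌉₊ / Real.log K) ≤
            count M x (a + α * j) (b + β * j) (c + γ * j) := by
  classical
  let l : Pool.Agent.Helper24K9.EM.Ln := ⟨α, β, γ, a, b, c, hlead, hres⟩
  have hv : ∀ j t : ℕ, (j : ℤ) * l.G t + l.H t = f (a + α * j) (b + β * j) (c + γ * j) t := by
    intro j t
    show (j : ℤ) * (α * (t : ℤ) ^ 2 + β * t + γ) + (a * (t : ℤ) ^ 2 + b * t + c) = _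
    unfold f
    ring
  obtain ⟨m₀, hm₀⟩ := p_le
  refine ⟨l.t0 + 1, fun ε θ hε hθ => ?_⟩
  set B : ℕ := ⌈4 / ε⌉₊ with hB
  obtain ⟨κ, hκ, K₀, h⟩ := l.sparse' B θ hθ
  -- `K` is large if `n` is
  obtain ⟨n₁, hn₁⟩ : ∃ n₁ : ℕ, ∀ n : ℕ, n₁ ≤ n → Real.log K₀ + 1 ≤ (n : ℝ) ^ ε := by
    have h1 : Filter.Tendsto (fun n : ℕ => (n : ℝ) ^ ε) Filter.atTop Filter.atTop :=
      (tendsto_rpow_atTop hε).comp tendsto_natCast_atTop_atTop
    exact Filter.eventually_atTop.1 (h1.eventually_ge_atTop _)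
  refine ⟨κ, hκ, max n₁ m₀, fun n K hn hnK x hx M hM hMc => ?_⟩
  have hnn₁ : n₁ ≤ n := (le_max_left _ _).trans hn
  have hnm₀ : m₀ ≤ n := (le_max_right _ _).trans hn
  have hlK : Real.log K₀ + 1 ≤ Real.log K := (hn₁ n hnn₁).trans hnK
  have hKK₀ : K₀ ≤ K := by
    by_contra hcon
    push Not at hcon
    rcases Nat.eq_zero_or_pos K with h0 | h0
    · rw [h0] at hlK
      simp only [Nat.cast_zero, Real.log_zero] at hlK
      have : 0 ≤ Real.log K₀ := Real.log_natCast_nonneg _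
      linarith
    · have h1 : Real.log K ≤ Real.log K₀ := Real.log_le_log (by exact_mod_cast h0) (by exact_mod_cast hcon.le)
      linarith
  have hlK1 : 1 ≤ Real.log K := by
    have : 0 ≤ Real.log K₀ := Real.log_natCast_nonneg _
    linarith
  obtain ⟨hp, hinj'⟩ := three n (l.t0 + 1) (by omega) m₀ hm₀ hnm₀ x hx M hM
  have hp2 : ∀ m ∈ M, (x m : ℝ) ≤ Real.log K ^ B := by
    intro m hm
    have h5 : (x m : ℝ) ≤ (n : ℝ) ^ 4 := by exact_mod_cast (hp m hm).2.2
    have hn0 : (0:ℝ) ≤ n := Nat.cast_nonneg _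
    have h6 : (n : ℝ) ^ 4 = ((n : ℝ) ^ ε) ^ (4 / ε) := by
      rw [← Real.rpow_mul hn0, mul_div_cancel₀ _ hε.ne']
      norm_cast
    rw [h6] at h5
    refine h5.trans ?_
    calc ((n : ℝ) ^ ε) ^ (4 / ε) ≤ (Real.log K) ^ (4 / ε) :=
          Real.rpow_le_rpow (by positivity) hnK (by positivity)
      _ ≤ (Real.log K) ^ (B : ℝ) := Real.rpow_le_rpow_of_exponent_le hlK1 (Nat.le_ceil _)
      _ = Real.log K ^ B := Real.rpow_natCast _ _
  have hinj : Set.InjOn x M := fun m hm m' hm' h => hinj' m hm m' hm' h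
  set T : Finset ℕ := M.image x with hT
  have hTcard : T.card = M.card := card_image_of_injOn hinj
  have hmem : ∀ t ∈ T, ∃ m ∈ M, x m = t := fun t ht => mem_image.1 ht
  have h1 := h K hKK₀ T (by
    intro t ht
    obtain ⟨m, hm, rfl⟩ := hmem t ht
    exact ⟨by have := (hp m hm).2.1; omega, hp2 m hm⟩) (by
    intro t ht
    obtain ⟨m, hm, rfl⟩ := hmem t ht
    exact hMc m hm)
  rw [hTcard] at h1
  refine ⟨_, filter_subset _ _, h1, fun j hj => ?_⟩
  obtain ⟨h2, h3⟩ := (mem_filter.1 hj).2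
  have ecard : ∀ Q : ℕ → Prop, [DecidablePred Q] → (T.filter Q).card = (M.filter (fun m => Q (x m))).card := by
    intro Q _
    rw [hT, filter_image]
    exact card_image_of_injOn (hinj.mono (by intro y hy; exact (mem_filter.1 hy).1))
  have eN : l.numP j T = count M x (a + α * j) (b + β * j) (c + γ * j) := by
    unfold Pool.Agent.Helper24K9.EM.Ln.numP count
    rw [ecard]
    simp only [hv]
  have eU : (l.unsieved (Pool.Agent.Helper24K9.EM.Ln.yK K) j T : ℝ) /
      Pool.Agent.W218.HF.Wz (Pool.Agent.Helper24K9.EM.Ln.yK K) =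
      rough M x (a + α * j) (b + β * j) (c + γ * j) ⌈Real.log (Real.log K)⌉₊ := by
    unfold Pool.Agent.Helper24K9.EM.Ln.unsieved Pool.Agent.W218.HF.Wz rough Pool.Agent.Helper24K9.EM.Ln.yK
    rw [ecard]
    simp only [hv]
  rw [eN] at h2
  rw [eN, eU] at h3
  exact ⟨h2, h3⟩

end Pool.Agent.Results.MP_04ff0f_nt.EverySetOfSummands
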