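import Pool.Agent.R498.MP.LinC
import Pool.Agent.Helper32K9.Str.Index

set_option autoImplicit false

/-!
# Runs of integers `n = k + m` with almost prime `p_k ^ 2 - 2` for all `m` of the required kind up to `L`

`E` is the set of the `m` with `p_m ^ 2 - 2` and `p_(p_m) ^ 2 - 2` prime. There are runs of `L` consecutive integers
`n` such that for every `m ∈ E`, `m ≤ L`, the value `p_(n - m) ^ 2 - 2` is almost prime, and these runs come from a
positive proportion of ALL patterns of `2 L` consecutive primes in any large finite set `T`.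
-/

namespace Pool.Agent.Results.MP_04ff0f_nt.RunsOfIndices

open Filter

/-- the `j`-th prime, `p 1 = 2` -/
noncomputable def p (j : ℕ) : ℕ := Nat.nth Nat.Prime (j - 1)

/-- the integers `m ≥ 1` such that `p_m ^ 2 - 2` and `p_(p_m) ^ 2 - 2` are prime -/
def E : Set ℕ := {m | 1 ≤ m ∧ (p m ^ 2 - 2).Prime ∧ (p (p m) ^ 2 - 2).Prime}

/-- `y ^ 2 - 2` has at most `R` prime factors, counted with multiplicity, all of them at least `w`. -/
def AlmostPrimeValue (R : ℕ) (w : ℝ) (y : ℕ) : Prop :=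
  (y ^ 2 - 2).primeFactorsList.length ≤ R ∧ ∀ s : ℕ, s.Prime → s ∣ y ^ 2 - 2 → w ≤ s

/-- `n` has a representation `n = k + m` with `m ∈ E` and almost prime `p_k ^ 2 - 2` (all prime factors at
least `w`) for EVERY `m ∈ E` up to `L`. -/
def Represented (L R : ℕ) (w : ℝ) (n : ℕ) : Prop :=
  ∀ m ∈ E, m ≤ L → ∃ k : ℕ, 1 ≤ k ∧ k + m = n ∧ AlmostPrimeValue R w (p k)

/-- For some `x` and `K` the set `x + H` consists exactly of the `2 L` consecutive primes `p_(K + 1)`, ...,
`p_(K + 2 L)`, all in `(N, 2 N]`, `≡ e` modulo `q` and with almost prime values of `y ^ 2 - 2`, and all the `L`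
integers `K + L + 1`, ..., `K + 2 L` are `Represented`. -/
def OccursAt (q e L R : ℕ) (δ : ℝ) (N : ℕ) (H : Finset ℕ) : Prop :=
  ∃ x K : ℕ, H.image (fun h => x + h) = (Finset.range (2 * L)).image (fun i => p (K + 1 + i)) ∧
    (∀ h ∈ H, N < x + h ∧ x + h ≤ 2 * N ∧ x + h ≡ e [MOD q] ∧ AlmostPrimeValue R ((N : ℝ) ^ δ) (x + h)) ∧
    ∀ n : ℕ, K + L < n → n ≤ K + 2 * L → Represented L R ((N : ℝ) ^ δ) n

theorem nonzero (n : ℤ) (_hn : n ≠ 0) : n ^ 2 - 2 ≠ 0 := by
  intro h
  have h1 : n ^ 2 = 2 := by linarith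
  have h2 : n.natAbs ^ 2 = 2 := by
    have := congrArg Int.natAbs h1
    rwa [Int.natAbs_pow] at this
  have h3 : n.natAbs < 2 := by nlinarith
  interval_cases n.natAbs <;> omega

theorem cast_val (y : ℕ) (hy : 2 ≤ y) : (y : ℤ) ^ 2 - 2 = ((y ^ 2 - 2 : ℕ) : ℤ) := by
  have h : 2 ≤ y ^ 2 := by nlinarith
  push_cast [Nat.cast_sub h]
  ring

theorem small_mem : 1 ∈ E ∧ 2 ∈ E := by
  have h1 : p 1 = 2 := Nat.nth_prime_zero_eq_two
  have h2 : p 2 = 3 := Nat.nth_prime_one_eq_three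
  have h3 : p 3 = 5 := Nat.nth_prime_two_eq_five
  refine ⟨⟨le_rfl, ?_, ?_⟩, ⟨by norm_num, ?_, ?_⟩⟩
  · rw [h1]; norm_num
  · rw [h1, h2]; norm_num
  · rw [h2]; norm_num
  · rw [h2, h3]; norm_num

/-- **Runs of represented integers.** Let `q` be squarefree and `e (e ^ 2 - 2)` coprime to `q` (for instance
`q = 1`). For every `L ≥ 1` there are `C`, `R` and `δ > 0` such that, for every finite set `T` of at least `C`
nonnegative integers and all large `N`, the proportion of the `2 L`-element subsets `H` of `T` with `OccursAt`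
is at least `1 / C`. The set `E` contains `1` and `2`. -/
theorem result (q e : ℕ) (hq : Squarefree q)
    (he : IsCoprime ((e : ℤ) * ((e : ℤ) ^ 2 - 2)) (q : ℤ)) (L : ℕ) (hL : 1 ≤ L) :
    (1 ∈ E ∧ 2 ∈ E) ∧
    ∃ (C R : ℕ) (δ : ℝ), 0 < C ∧ 0 < δ ∧ ∀ T : Finset ℕ, C ≤ T.card → ∀ᶠ N : ℕ in atTop,
      T.card.choose (2 * L) ≤ C * {H : Finset ℕ | H ⊆ T ∧ H.card = 2 * L ∧ OccursAt q e L R δ N H}.ncard := by
  refine ⟨small_mem, ?_⟩
  have hev : ∀ n : ℤ, (Polynomial.X ^ 2 - Polynomial.C 2 : Polynomial ℤ).eval n = n ^ 2 - 2 := fun n => by simp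
  obtain ⟨r, hr⟩ : ∃ r, 2 * L = r + 1 := ⟨2 * L - 1, by omega⟩
  obtain ⟨C, R, δ, hC, hδ, hmain⟩ := Pool.Agent.Helper32K9.Str.index_prop
    (Polynomial.X ^ 2 - Polynomial.C 2)
    (fun n hn => by rw [hev]; exact nonzero n hn)
    (fun p hp => ⟨1, by
      rw [hev]
      norm_num
      intro h
      exact hp.one_lt.ne' (Nat.dvd_one.1 (by exact_mod_cast h))⟩) q e hq (fun p hp hpq => by
      rw [hev]
      exact Pool.Agent.R498.MP.cop_to _ q he p hp hpq) 1 r le_rfl
  refine ⟨C, R, δ, hC, hδ, fun T hT => ?_⟩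
  filter_upwards [hmain T hT 0, eventually_ge_atTop 2] with N hN hN2
  rw [hr]
  refine hN.trans (Nat.mul_le_mul_left _ (Set.ncard_le_ncard ?_ ?_))
  · rintro H ⟨hHT, hHm, x, K, h3, h4⟩
    have hAP : ∀ h ∈ H, AlmostPrimeValue R ((N : ℝ) ^ δ) (x + h) := by
      intro h hh
      obtain ⟨g1, g2, g3, -, g5, g6⟩ := h4 h hh
      have hx : 2 ≤ x + h := by omega
      rw [hev, cast_val _ hx] at g5 g6
      rw [Int.natAbs_natCast] at g5
      exact ⟨g5, fun s hs hsd => g6 s hs (by exact_mod_cast hsd)⟩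
    have h5 : H.image (fun h => x + h) = (Finset.range (2 * L)).image (fun i => p (K + 1 + i)) := by
      rw [h3, hr]
      apply Finset.image_congr
      intro i _
      have e3 : 1 * (K + i) + 0 = K + 1 + i - 1 := by omega
      simp only [p, e3]
    refine ⟨hHT, hHm, x, K, h5, fun h hh => ?_, fun n hn1 hn2 m hm hmL => ?_⟩
    · obtain ⟨g1, g2, g3, -⟩ := h4 h hh
      exact ⟨g1, g2, g3, hAP h hh⟩
    · have hm1 : 1 ≤ m := hm.1
      refine ⟨n - m, by omega, by omega, ?_⟩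
      have h6 : p (n - m) ∈ (Finset.range (2 * L)).image (fun i => p (K + 1 + i)) := by
        rw [Finset.mem_image]
        refine ⟨n - m - (K + 1), Finset.mem_range.2 (by omega), ?_⟩
        congr 1
        omega
      rw [← h5, Finset.mem_image] at h6
      obtain ⟨h, hh, hh2⟩ := h6
      rw [← hh2]
      exact hAP h hh
  · apply (T.powersetCard (r + 1)).finite_toSet.subset
    rintro H ⟨h1, h2, -⟩
    exact Finset.mem_coe.2 (Finset.mem_powersetCard.2 ⟨h1, h2⟩)

end Pool.Agent.Results.MP_04ff0f_nt.RunsOfIndices
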